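import Pool.Agent.X181.DR.T3

/-!
# A pp-wave with a normal conformal Killing field which is not conformal to any `g_h`

The metric is `½ (dt dy + dy dt) + dx² + eˣ dy²` on `ℝ³`.
-/

set_option autoImplicit false

namespace Pool.Agent.Results.MP_89bbb3_gt.ExpWave

open scoped ContDiff
open Pool.Agent.X181 Pool.Agent.X181.N3

/-- There are a metric `g` of signature `(1,2)` on `ℝ³` whose Cotton tensor vanishes at no point,
and a nowhere vanishing normal conformal Killing field `k` of `g`, such that no nonempty open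
subset of `(ℝ³, g)` has a smooth conformal map to `(ℝ³, g_h)`, for any smooth function `h`. -/
theorem result :
    ∃ (g : V → V → V → ℝ) (Γ : V → V →L[ℝ] V →L[ℝ] V) (k : V → V),
      IsLorentz Set.univ g ∧ IsLeviCivita Set.univ g Γ ∧
      IsCKF Set.univ g k ∧ (∀ x, k x ≠ 0) ∧ (∀ x a b, Cotton g Γ x a b (k x) = 0) ∧
      (∀ x, ∃ c a b, Cotton g Γ x c a b ≠ 0) ∧
      ∀ U : Set V, IsOpen U → U.Nonempty → ∀ h : ℝ → ℝ, ContDiff ℝ ∞ h →
        ∀ (φ : V → V) (u : V → ℝ), ContDiffOn ℝ ∞ φ U → ContDiffOn ℝ ∞ u U →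
          ¬∀ p ∈ U, ∀ v w, gh h (φ p) (fderiv ℝ φ p v) (fderiv ℝ φ p w) =
            Real.exp (2 * u p) * g p v w := by
  refine ⟨gx, Gx, kk, gx_isLorentz, isLC, kk_ckf, fun x h => ?_, fun x a b => ?_, fun x => ?_,
    fun U hU hne h hh φ u hφ hu => no_map hU hne hh hφ hu⟩
  · have := congrFun h 2
    simp [kk] at this
  · rw [cotton]; simp [kk]
  · refine ⟨![0, 1, 0], ![1, 0, 0], ![0, 1, 0], ?_⟩
    rw [cotton]
    simp

end Pool.Agent.Results.MP_89bbb3_gt.ExpWave
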